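import Pool.Agent.Helper67.NW.Swaps
import Pool.Agent.Helper61.NW.Goals

/-!
# Packet CRX of project NW
-/

set_option autoImplicit false

namespace Pool.Agent.Helper67.NW

open Pool.Agent.Helper52.Wq2 Pool.Agent.Helper61.NW

universe u

/-- A crossing between two lines. -/
def CL {Γ : Type u} [Group Γ] (S : Set Γ) (h : Γ → ℤ) (s : Γ) (H : ℕ)
    (u v : Γ ⧸ Subgroup.zpowers s) : Prop :=
  ∃ a b : Γ, (a : Γ ⧸ Subgroup.zpowers s) = u ∧ (b : Γ ⧸ Subgroup.zpowers s) = v ∧
    h b = h a + H ∧ a⁻¹ * b ∈ S ∧ (a * s)⁻¹ * (b * s⁻¹) ∈ S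

section
variable {Γ : Type u} [Group Γ] {S : Set Γ} {h : Γ → ℤ} {s : Γ} {H n m : ℕ}

theorem h_one (T : Two S h s H n m) : h 1 = 0 := by
  have := T.hom 1 1
  rw [mul_one] at this
  omega

theorem h_inv (T : Two S h s H n m) (a : Γ) : h a⁻¹ = - h a := by
  have := T.hom a⁻¹ a
  rw [inv_mul_cancel, h_one T] at this
  omega

theorem mk_mul_zpow (a : Γ) (i : ℤ) :
    ((a * s ^ i : Γ) : Γ ⧸ Subgroup.zpowers s) = (a : Γ ⧸ Subgroup.zpowers s) := by
  rw [QuotientGroup.eq]
  refine Subgroup.mem_zpowers_iff.2 ⟨-i, ?_⟩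
  group

theorem CL.symm (T : Two S h s H n m) {u v : Γ ⧸ Subgroup.zpowers s} (hc : CL S h s H u v) :
    CL S h s H v u := by
  obtain ⟨a, b, rfl, rfl, h1, h2, h3⟩ := hc
  refine ⟨b * s⁻¹, a * s, ?_, ?_, ?_, ?_, ?_⟩
  · have := mk_mul_zpow (s := s) b (-1)
    rwa [zpow_neg_one] at this
  · have := mk_mul_zpow (s := s) a 1
    rwa [zpow_one] at this
  · rw [T.hom, T.hom, h_inv T, T.Hs]
    omega
  · have := T.gen.2.1 _ h3
    rwa [mul_inv_rev, inv_inv] at this
  · have := T.gen.2.1 _ h2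
    rw [mul_inv_rev, inv_inv] at this
    rwa [inv_mul_cancel_right, mul_inv_cancel_right]

theorem CL.smul (T : Two S h s H n m) {u v : Γ ⧸ Subgroup.zpowers s} (hc : CL S h s H u v)
    (g : Γ) : CL S h s H (g • u) (g • v) := by
  obtain ⟨a, b, rfl, rfl, h1, h2, h3⟩ := hc
  refine ⟨g * a, g * b, rfl, rfl, ?_, ?_, ?_⟩
  · rw [T.hom, T.hom, h1]
    omega
  · rwa [mul_inv_rev, mul_assoc, inv_mul_cancel_left]
  · rwa [mul_assoc, mul_assoc, mul_inv_rev, mul_assoc, inv_mul_cancel_left]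

theorem ln_smul {u v : Γ ⧸ Subgroup.zpowers s} (hc : (Ln S s).Adj u v) (g : Γ) :
    (Ln S s).Adj (g • u) (g • v) := by
  unfold Ln at hc ⊢
  rw [SimpleGraph.fromRel_adj] at hc ⊢
  obtain ⟨h1, h2⟩ := hc
  refine ⟨fun hcon => h1 (MulAction.injective g hcon), ?_⟩
  rcases h2 with ⟨x, t, ht, hx, hxt⟩ | ⟨x, t, ht, hx, hxt⟩
  · left
    refine ⟨g * x, t, ht, ?_, ?_⟩
    · rw [← hx]; rfl
    · rw [← hxt, mul_assoc]; rfl
  · right
    refine ⟨g * x, t, ht, ?_, ?_⟩
    · rw [← hx]; rfl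
    · rw [← hxt, mul_assoc]; rfl

/-- Gaps with crossings: some `j₀` such that all gaps `j₀ + 2 i` have crossings. -/
theorem gaps (T : Two S h s H n m) (hn : 3 ≤ n) (e : (Γ ⧸ Subgroup.zpowers s) ≃ ZMod n)
    (he : IsCyc S s n e) (hcr : ∃ j, Crs S h s H n e j) :
    ∃ j₀ : ZMod n, ∀ i : ℕ, CL S h s H (e.symm (j₀ + 2 * i)) (e.symm (j₀ + 2 * i + 1)) := by
  classical
  have : NeZero n := ⟨by omega⟩
  have : Fact (1 < n) := ⟨by omega⟩
  set P : ZMod n → Prop := fun j => CL S h s H (e.symm j) (e.symm (j + 1)) with hP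
  -- the neighbours of a line
  have h2ne : ∀ j : ZMod n, j + 1 ≠ j - 1 := by
    intro j hj
    have h1 : (2 : ZMod n) = 0 := by
      have : j + 1 - (j - 1) = 0 := by rw [hj, sub_self]
      rw [← this]
      ring
    have h2 : ((2 : ℕ) : ZMod n) = 0 := by exact_mod_cast h1
    rw [ZMod.natCast_eq_zero_iff] at h2
    have := Nat.le_of_dvd (by norm_num) h2
    omega
  have hadj1 : ∀ j, (Ln S s).Adj (e.symm j) (e.symm (j + 1)) := by
    intro j
    rw [he]
    left
    rw [Equiv.apply_symm_apply, Equiv.apply_symm_apply]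
  have hadj2 : ∀ j, (Ln S s).Adj (e.symm j) (e.symm (j - 1)) := by
    intro j
    rw [he]
    right
    rw [Equiv.apply_symm_apply, Equiv.apply_symm_apply, sub_add_cancel]
  have hnb : ∀ (j : ZMod n) (w : Γ ⧸ Subgroup.zpowers s), (Ln S s).Adj (e.symm j) w →
      w = e.symm (j + 1) ∨ w = e.symm (j - 1) := by
    intro j w hw
    rw [he, Equiv.apply_symm_apply] at hw
    rcases hw with hw | hw
    · left
      rw [← hw, Equiv.symm_apply_apply]
    · right
      rw [hw, add_sub_cancel_right, Equiv.symm_apply_apply]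
  -- crossings at a line
  have hup : ∀ j, P j ↔ CL S h s H (e.symm j) (e.symm (j + 1)) := fun j => Iff.rfl
  have hdn : ∀ j, P (j - 1) ↔ CL S h s H (e.symm j) (e.symm (j - 1)) := by
    intro j
    have e1 : j - 1 + 1 = j := sub_add_cancel _ _
    constructor
    · intro hp
      have hp' : CL S h s H (e.symm (j - 1)) (e.symm (j - 1 + 1)) := hp
      rw [e1] at hp'
      exact hp'.symm T
    · intro hp
      show CL S h s H (e.symm (j - 1)) (e.symm (j - 1 + 1))
      rw [e1]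
      exact hp.symm T
  have htr : ∀ j j' : ZMod n, ∃ g : Γ, g • e.symm j = e.symm j' := by
    intro j j'
    exact MulAction.exists_smul_eq Γ _ _
  have T2 : ∀ j j', (P j ∨ P (j - 1)) → (P j' ∨ P (j' - 1)) := by
    intro j j' hj
    obtain ⟨g, hg⟩ := htr j j'
    have key : ∀ w, (Ln S s).Adj (e.symm j) w → CL S h s H (e.symm j) w →
        (P j' ∨ P (j' - 1)) := by
      intro w hw hc
      have h1 := ln_smul hw g
      have h2 := hc.smul T g
      rw [hg] at h1 h2
      rcases hnb j' _ h1 with h3 | h3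
      · rw [h3] at h2
        exact Or.inl h2
      · rw [h3] at h2
        exact Or.inr ((hdn j').2 h2)
    rcases hj with hj | hj
    · exact key _ (hadj1 j) hj
    · exact key _ (hadj2 j) ((hdn j).1 hj)
  have T1 : ∀ j j', (P j ∧ P (j - 1)) → (P j' ∧ P (j' - 1)) := by
    intro j j' hj
    obtain ⟨g, hg⟩ := htr j j'
    have h1 := ln_smul (hadj1 j) g
    have h2 := ln_smul (hadj2 j) g
    have c1 := CL.smul T hj.1 g
    have c2 := CL.smul T ((hdn j).1 hj.2) g
    rw [hg] at h1 h2 c1 c2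
    have hne : g • e.symm (j + 1) ≠ g • e.symm (j - 1) := by
      intro hcon
      exact h2ne j (e.symm.injective (MulAction.injective g hcon))
    rcases hnb j' _ h1 with h3 | h3 <;> rcases hnb j' _ h2 with h4 | h4
    · exact absurd (h3.trans h4.symm) hne
    · rw [h3] at c1
      rw [h4] at c2
      exact ⟨c1, (hdn j').2 c2⟩
    · rw [h3] at c1
      rw [h4] at c2
      exact ⟨c2, (hdn j').2 c1⟩
    · exact absurd (h3.trans h4.symm) hne
  obtain ⟨j₁, a, b, ha, hb, h1, h2, h3⟩ := hcr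
  have hj₁ : P j₁ := by
    refine ⟨a, b, ?_, ?_, h1, h2, h3⟩
    · rw [← ha, Equiv.symm_apply_apply]
    · rw [← hb, Equiv.symm_apply_apply]
  by_cases hboth : ∃ j, P j ∧ P (j - 1)
  · obtain ⟨j, hj⟩ := hboth
    refine ⟨0, fun i => (T1 j _ hj).1⟩
  · refine ⟨j₁, fun i => ?_⟩
    induction i with
    | zero =>
      have e1 : j₁ + 2 * ((0 : ℕ) : ZMod n) = j₁ := by simp
      rw [e1]
      exact hj₁
    | succ i ih =>
      have hi : P (j₁ + 2 * (i : ZMod n)) := ih
      have hnot : ¬ P (j₁ + 2 * (i : ZMod n) + 1) := by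
        intro hcon
        refine hboth ⟨_, hcon, ?_⟩
        rw [add_sub_cancel_right]
        exact hi
      have e1 : j₁ + 2 * ((i + 1 : ℕ) : ZMod n) = j₁ + 2 * (i : ZMod n) + 1 + 1 := by
        push_cast
        ring
      rw [e1]
      rcases T2 j₁ (j₁ + 2 * (i : ZMod n) + 1 + 1) (Or.inl hj₁) with h4 | h4
      · exact h4
      · rw [add_sub_cancel_right] at h4
        exact absurd h4 hnot

end

/-- **CRX.** -/
theorem crx : CrxStmt.{u} := by
  intro Γ _ S h s H n m T hn e he hcr q hq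
  classical
  have : NeZero n := ⟨by omega⟩
  obtain ⟨j₀, hj₀⟩ := gaps T hn e he hcr
  choose a b ha hb h1 h2 h3 using hj₀
  -- centrality
  have hcen : ∀ (g : Γ) (k : ℤ), g * s ^ ((m : ℤ) * k) = s ^ ((m : ℤ) * k) * g := by
    intro g k
    have hc : Commute g (s ^ m) := T.cen g
    have := (hc.zpow_right k).eq
    rwa [← zpow_natCast, ← zpow_mul] at this
  have hconj : ∀ (x y : Γ) (k : ℤ),
      (x * s ^ ((m : ℤ) * k))⁻¹ * (y * s ^ ((m : ℤ) * k)) = x⁻¹ * y := by
    intro x y k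
    rw [hcen x, hcen y, mul_inv_rev, mul_assoc, inv_mul_cancel_left]
  have hpow : ∀ k : ℤ, h (s ^ k) = k * H := by
    have hnat : ∀ k : ℕ, h (s ^ k) = k * H := by
      intro k
      induction k with
      | zero => rw [pow_zero, h_one T]; simp
      | succ k ih =>
        rw [pow_succ, T.hom, ih, T.Hs]
        push_cast
        ring
    intro k
    rcases Int.eq_nat_or_neg k with ⟨c, rfl | rfl⟩
    · rw [zpow_natCast, hnat]
    · rw [zpow_neg, zpow_natCast, h_inv T, hnat]
      ring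
  have hHpos : (0 : ℤ) < H := by exact_mod_cast T.Hpos
  have hsinj : ∀ t t' : ℤ, s ^ t = s ^ t' → t = t' := by
    intro t t' ht
    have := congrArg h ht
    rw [hpow, hpow] at this
    exact mul_right_cancel₀ hHpos.ne' this
  -- the lines
  let L : ℕ → Bool → ℤ → Γ := fun j c t => if c then b j * s ^ (t - 1) else a j * s ^ t
  have hLf : ∀ j t, L j false t = a j * s ^ t := fun j t => rfl
  have hLt : ∀ j t, L j true t = b j * s ^ (t - 1) := fun j t => rfl
  have heL : ∀ j (c : Bool) t, e ((L j c t : Γ) : Γ ⧸ Subgroup.zpowers s)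
      = j₀ + ((2 * j + (if c then 1 else 0) : ℕ) : ZMod n) := by
    intro j c t
    cases c
    · rw [hLf, mk_mul_zpow, ha, Equiv.apply_symm_apply]
      simp
    · rw [hLt, mk_mul_zpow, hb, Equiv.apply_symm_apply]
      push_cast
      simp [add_assoc]
  refine star_of_swaps q (m : ℤ) (by exact_mod_cast T.mpos) L ?_ ?_ ?_ ?_
  · -- injective
    intro j hj j' hj' c c' t t' hL
    have h4 := congrArg (fun x : Γ => e (x : Γ ⧸ Subgroup.zpowers s)) hL
    rw [heL, heL, add_right_inj] at h4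
    have h5 : (2 * j + (if c then 1 else 0)) = (2 * j' + (if c' then 1 else 0)) := by
      have h6 := congrArg ZMod.val h4
      rw [ZMod.val_natCast, ZMod.val_natCast, Nat.mod_eq_of_lt, Nat.mod_eq_of_lt] at h6
      · exact h6
      · split_ifs <;> omega
      · split_ifs <;> omega
    have h6 : j = j' ∧ c = c' := by
      cases c <;> cases c' <;> simp at h5 ⊢ <;> omega
    obtain ⟨rfl, rfl⟩ := h6
    refine ⟨rfl, rfl, ?_⟩
    cases c
    · rw [hLf, hLf] at hL
      exact hsinj _ _ (mul_left_cancel hL)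
    · rw [hLt, hLt] at hL
      have := hsinj _ _ (mul_left_cancel hL)
      omega
  · -- along the lines
    intro j hj c t
    have : L j c (t + 1) = L j c t * s := by
      cases c
      · rw [hLf, hLf, zpow_add_one, mul_assoc]
      · rw [hLt, hLt, mul_assoc, ← zpow_add_one]
        congr 2
        ring
    rw [this]
    exact cay_adj_mul T.gen _ T.hs
  · -- crossings
    intro j hj k
    constructor
    · rw [hLf, hLt, add_sub_cancel_right, cay_adj T.gen, hconj]
      exact h2 j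
    · rw [hLf, hLt, cay_adj T.gen]
      have e1 : a j * s ^ ((m : ℤ) * k + 1) = (a j * s) * s ^ ((m : ℤ) * k) := by
        rw [add_comm, zpow_add, zpow_one, mul_assoc]
      have e2 : b j * s ^ ((m : ℤ) * k - 1) = (b j * s⁻¹) * s ^ ((m : ℤ) * k) := by
        rw [sub_eq_add_neg, add_comm, zpow_add, zpow_neg_one, mul_assoc]
      rw [e1, e2, hconj]
      exact h3 j
  · -- between the pairs
    intro j hj
    have hadj : (Ln S s).Adj (b j : Γ ⧸ Subgroup.zpowers s)
        (a (j + 1) : Γ ⧸ Subgroup.zpowers s) := by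
      rw [he]
      left
      rw [hb, ha, Equiv.apply_symm_apply, Equiv.apply_symm_apply]
      push_cast
      ring
    have hxy : ∃ x y : Γ, (b j : Γ ⧸ Subgroup.zpowers s) = (x : Γ ⧸ Subgroup.zpowers s) ∧
        (a (j + 1) : Γ ⧸ Subgroup.zpowers s) = (y : Γ ⧸ Subgroup.zpowers s) ∧ x⁻¹ * y ∈ S := by
      unfold Ln at hadj
      rw [SimpleGraph.fromRel_adj] at hadj
      rcases hadj.2 with ⟨g, t, ht, hg, hgt⟩ | ⟨g, t, ht, hg, hgt⟩
      · exact ⟨g, g * t, hg.symm, hgt.symm, by rwa [inv_mul_cancel_left]⟩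
      · refine ⟨g * t, g, hgt.symm, hg.symm, ?_⟩
        have := T.gen.2.1 _ ht
        rwa [mul_inv_rev, inv_mul_cancel_right]
    obtain ⟨x, y, hx, hy, hS⟩ := hxy
    rw [QuotientGroup.eq] at hx hy
    obtain ⟨i, hi⟩ := Subgroup.mem_zpowers_iff.1 hx
    obtain ⟨i', hi'⟩ := Subgroup.mem_zpowers_iff.1 hy
    refine ⟨i + 1, i', fun k => ?_⟩
    rw [hLt, hLf, cay_adj T.gen]
    have e1 : b j * s ^ (i + 1 + (m : ℤ) * k - 1) = x * s ^ ((m : ℤ) * k) := by
      have : i + 1 + (m : ℤ) * k - 1 = i + (m : ℤ) * k := by ring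
      rw [this, zpow_add, ← mul_assoc, hi, mul_inv_cancel_left]
    have e2 : a (j + 1) * s ^ (i' + (m : ℤ) * k) = y * s ^ ((m : ℤ) * k) := by
      rw [zpow_add, ← mul_assoc, hi', mul_inv_cancel_left]
    rw [e1, e2, hconj]
    exact hS

end Pool.Agent.Helper67.NW
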