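import Pool.Agent.Helper52.Wq2.Stars
import Pool.Agent.Helper52.Wq2.Cyls

/-!
# Packet CRX of project NW, part 1: a star of lines from pairs of lines with crossings

`L j b` is the line number `2 j` (`b = false`) or `2 j + 1` (`b = true`). In the period
`(x P, (x + 1) P]` the centre uses `L j false` up to the height `x P + R j`, then `L j true`; the
leaf `j` uses the other line.
-/

set_option autoImplicit false

namespace Pool.Agent.Helper67.NW

open Pool.Agent.Helper52.Wq2

variable {V : Type*} {G : SimpleGraph V}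

/-- an interval on a line -/
def Seg (f : ℤ → V) (a b : ℤ) : Set V := {v | ∃ t, (a < t ∧ t ≤ b) ∧ f t = v}

theorem conn_seg (f : ℤ → V) (hf : ∀ t, G.Adj (f t) (f (t + 1))) {a b : ℤ} (hab : a < b) :
    Conn G (Seg f a b) :=
  conn_line f (fun t => a < t ∧ t ≤ b) (a + 1) ⟨by omega, by omega⟩
    (fun x h1 h2 => ⟨by omega, by omega⟩) (fun x h1 h2 => ⟨by omega, by omega⟩)
    (fun x _ _ => hf x)

theorem star_of_swaps (q : ℕ) (m : ℤ) (hm : 0 < m) (L : ℕ → Bool → ℤ → V)
    (hinj : ∀ j, j ≤ q → ∀ j', j' ≤ q → ∀ b b' t t', L j b t = L j' b' t' →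
      j = j' ∧ b = b' ∧ t = t')
    (hl : ∀ j, j ≤ q → ∀ b t, G.Adj (L j b t) (L j b (t + 1)))
    (hx : ∀ j, j ≤ q → ∀ k : ℤ, G.Adj (L j false (m * k)) (L j true (m * k + 1)) ∧
      G.Adj (L j false (m * k + 1)) (L j true (m * k)))
    (hh : ∀ j, j < q → ∃ c d : ℤ, ∀ k : ℤ,
      G.Adj (L j true (c + m * k)) (L (j + 1) false (d + m * k))) :
    Mn (StarZ (Fin q)) G := by
  classical
  choose! c d hcd using hh
  -- a bound
  obtain ⟨D, hD0, hD⟩ : ∃ D : ℤ, 0 ≤ D ∧ ∀ j, j < q → |c j| ≤ D ∧ |d j| ≤ D := by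
    refine ⟨∑ j ∈ Finset.range q, (|c j| + |d j|),
      Finset.sum_nonneg fun j _ => add_nonneg (abs_nonneg _) (abs_nonneg _), fun j hj => ?_⟩
    have h1 := Finset.single_le_sum (f := fun j => |c j| + |d j|)
      (fun j _ => add_nonneg (abs_nonneg _) (abs_nonneg _)) (Finset.mem_range.2 hj)
    have h2 := abs_nonneg (c j)
    have h3 := abs_nonneg (d j)
    constructor <;> linarith
  set κ : ℤ := D + 1 with hκ
  set E : ℤ := m * κ with hE
  have hEκ : D + 1 ≤ E := by rw [hE]; nlinarith
  have hEm : m ≤ E := by rw [hE]; nlinarith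
  set W : ℤ := 2 * E with hW
  have hWpos : 0 < W := by omega
  set P : ℤ := W * ((q : ℤ) + 2) with hP
  set R : ℕ → ℤ := fun j => W * ((j : ℤ) + 1) with hR
  have hR1 : ∀ j : ℕ, W ≤ R j := by
    intro j
    have : (0 : ℤ) ≤ j := by positivity
    simp only [hR]
    nlinarith
  have hRs : ∀ j : ℕ, R (j + 1) = R j + W := by
    intro j
    simp only [hR]
    push_cast
    ring
  have hRP : ∀ j : ℕ, j ≤ q → R j + W ≤ P := by
    intro j hj
    have h1 : (j : ℤ) ≤ q := by exact_mod_cast hj
    simp only [hR, hP]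
    nlinarith
  have hPpos : 0 < P := by
    have h1 := hRP 0 (Nat.zero_le _)
    have h2 := hR1 0
    omega
  have hxP : ∀ x : ℤ, (x + 1) * P = x * P + P := by
    intro x; ring
  -- multiples of `m`
  have mR : ∀ (x : ℤ) (j : ℕ), ∃ k : ℤ, m * k = x * P + R j := by
    intro x j
    refine ⟨x * (2 * κ * ((q : ℤ) + 2)) + 2 * κ * ((j : ℤ) + 1), ?_⟩
    simp only [hR, hP, hW, hE]
    ring
  have mP : ∀ x : ℤ, ∃ k : ℤ, m * k = x * P := by
    intro x
    refine ⟨x * (2 * κ * ((q : ℤ) + 2)), ?_⟩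
    simp only [hP, hW, hE]
    ring
  -- the sets
  let φ : ℤ × Option (Fin q) → Set V := fun y => {w | ∃ j b t, j ≤ q ∧ y.1 * P < t ∧
    t ≤ (y.1 + 1) * P ∧ ((y.2 = none ∧ (b = true ↔ y.1 * P + R j < t)) ∨
      (∃ i : Fin q, y.2 = some i ∧ (i : ℕ) = j ∧ (b = false ↔ y.1 * P + R j < t))) ∧
    L j b t = w}
  have hc : ∀ x : ℤ, φ (x, none) = {v | ∃ j, j ≤ q ∧
      v ∈ Seg (L j false) (x * P) (x * P + R j) ∪ Seg (L j true) (x * P + R j) ((x + 1) * P)} := by
    intro x
    ext w
    constructor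
    · rintro ⟨j, b, t, hj, h1, h2, (⟨-, h3⟩ | ⟨i, h3, -⟩), rfl⟩
      · refine ⟨j, hj, ?_⟩
        cases b
        · left
          refine ⟨t, ⟨h1, ?_⟩, rfl⟩
          by_contra h4
          exact absurd (h3.2 (not_le.1 h4)) (by simp)
        · right
          exact ⟨t, ⟨h3.1 rfl, h2⟩, rfl⟩
      · simp at h3
    · rintro ⟨j, hj, (⟨t, ⟨h1, h2⟩, rfl⟩ | ⟨t, ⟨h1, h2⟩, rfl⟩)⟩
      · refine ⟨j, false, t, hj, h1, ?_, Or.inl ⟨rfl, ?_⟩, rfl⟩
        · have := hRP j hj
          show t ≤ (x + 1) * P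
          rw [hxP]
          omega
        · constructor
          · intro h; simp at h
          · intro h; exact absurd h (not_lt.2 h2)
      · refine ⟨j, true, t, hj, ?_, h2, Or.inl ⟨rfl, ?_⟩, rfl⟩
        · have := hR1 j
          show x * P < t
          omega
        · exact iff_of_true rfl h1
  have hs : ∀ (x : ℤ) (i : Fin q), φ (x, some i) =
      Seg (L i true) (x * P) (x * P + R i) ∪ Seg (L i false) (x * P + R i) ((x + 1) * P) := by
    intro x i
    have hiq : (i : ℕ) ≤ q := i.2.le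
    ext w
    constructor
    · rintro ⟨j, b, t, hj, h1, h2, (⟨h3, -⟩ | ⟨i', h3, h4, h5⟩), rfl⟩
      · simp at h3
      · have h6 : i = i' := by simpa using h3
        subst h6
        subst h4
        cases b
        · right
          exact ⟨t, ⟨h5.1 rfl, h2⟩, rfl⟩
        · left
          refine ⟨t, ⟨h1, ?_⟩, rfl⟩
          by_contra h4
          exact absurd (h5.2 (not_le.1 h4)) (by simp)
    · rintro (⟨t, ⟨h1, h2⟩, rfl⟩ | ⟨t, ⟨h1, h2⟩, rfl⟩)
      · refine ⟨i, true, t, hiq, h1, ?_, Or.inr ⟨i, rfl, rfl, ?_⟩, rfl⟩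
        · have := hRP i hiq
          show t ≤ (x + 1) * P
          rw [hxP]
          omega
        · constructor
          · intro h; simp at h
          · intro h; exact absurd h (not_lt.2 h2)
      · refine ⟨i, false, t, hiq, ?_, h2, Or.inr ⟨i, rfl, rfl, ?_⟩, rfl⟩
        · have := hR1 i
          show x * P < t
          omega
        · exact iff_of_true rfl h1
  -- membership
  have seg_mem : ∀ (f : ℤ → V) {a b t : ℤ}, a < t → t ≤ b → f t ∈ Seg f a b :=
    fun f a b t h1 h2 => ⟨t, ⟨h1, h2⟩, rfl⟩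
  have connPair : ∀ (x : ℤ) (j : ℕ), j ≤ q → Conn G (Seg (L j false) (x * P) (x * P + R j) ∪
      Seg (L j true) (x * P + R j) ((x + 1) * P)) := by
    intro x j hj
    have h1 := hR1 j
    have h2 := hRP j hj
    have h3 := hxP x
    obtain ⟨k, hk⟩ := mR x j
    have h4 := (hx j hj k).1
    rw [hk] at h4
    exact (conn_seg _ (hl j hj false) (by omega)).union (conn_seg _ (hl j hj true) (by omega))
      (seg_mem _ (by omega) le_rfl) (seg_mem _ (by omega) (by omega)) h4
  have connPair' : ∀ (x : ℤ) (j : ℕ), j ≤ q → Conn G (Seg (L j true) (x * P) (x * P + R j) ∪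
      Seg (L j false) (x * P + R j) ((x + 1) * P)) := by
    intro x j hj
    have h1 := hR1 j
    have h2 := hRP j hj
    have h3 := hxP x
    obtain ⟨k, hk⟩ := mR x j
    have h4 := (hx j hj k).2
    rw [hk] at h4
    exact (conn_seg _ (hl j hj true) (by omega)).union (conn_seg _ (hl j hj false) (by omega))
      (seg_mem _ (by omega) le_rfl) (seg_mem _ (by omega) (by omega)) h4.symm
  refine ⟨φ, ?_, ?_, ?_⟩
  · -- connected
    rintro ⟨x, o⟩
    cases o with
    | none =>
      rw [hc x]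
      refine conn_chain (fun j => Seg (L j false) (x * P) (x * P + R j) ∪
        Seg (L j true) (x * P + R j) ((x + 1) * P)) q (fun j hj => connPair x j hj) ?_
      intro j hj
      obtain ⟨k, hk⟩ := mR x j
      have h4 := hcd j hj (k + κ)
      have e : m * (k + κ) = x * P + R j + E := by rw [mul_add, hk]
      rw [e] at h4
      obtain ⟨h5, h6⟩ := hD j hj
      rw [abs_le] at h5 h6
      have h1 := hR1 j
      have h2 := hRP j hj.le
      have h3 := hxP x
      have h7 := hRs j
      refine ⟨_, Or.inr (seg_mem _ (by omega) (by omega)), _,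
        Or.inl (seg_mem _ (by omega) (by omega)), h4⟩
    | some i =>
      rw [hs x i]
      exact connPair' x i i.2.le
  · -- disjoint
    rintro ⟨x, o⟩ ⟨x', o'⟩ w ⟨j, b, t, hj, h1, h2, h3, h4⟩ ⟨j', b', t', hj', h1', h2', h3', h4'⟩
    obtain ⟨rfl, rfl, rfl⟩ := hinj j hj j' hj' b b' t t' (h4.trans h4'.symm)
    have hxx : x = x' := by
      simp only at h1 h2 h1' h2'
      rcases lt_trichotomy x x' with h | h | h
      · exfalso
        have : (x + 1) * P ≤ x' * P := mul_le_mul_of_nonneg_right (by omega) hPpos.le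
        omega
      · exact h
      · exfalso
        have : (x' + 1) * P ≤ x * P := mul_le_mul_of_nonneg_right (by omega) hPpos.le
        omega
    subst hxx
    have hoo : o = o' := by
      rcases h3 with ⟨h3, h5⟩ | ⟨i, h3, h5, h6⟩
      · rcases h3' with ⟨h3', h5'⟩ | ⟨i', h3', h5', h6'⟩
        · simp only at h3 h3'
          rw [h3, h3']
        · exfalso
          cases b
          · exact absurd (h5.2 (h6'.1 rfl)) (by decide)
          · exact absurd (h6'.2 (h5.1 rfl)) (by decide)
      · rcases h3' with ⟨h3', h5'⟩ | ⟨i', h3', h5', h6'⟩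
        · exfalso
          cases b
          · exact absurd (h5'.2 (h6.1 rfl)) (by decide)
          · exact absurd (h6.2 (h5'.1 rfl)) (by decide)
        · simp only at h3 h3'
          rw [h3, h3', Fin.ext (h5.trans h5'.symm)]
    rw [hoo]
  · -- adjacent
    have hstep : ∀ (x : ℤ) (o : Option (Fin q)), ∃ a ∈ φ (x, o), ∃ b ∈ φ (x + 1, o),
        G.Adj a b := by
      intro x o
      cases o with
      | none =>
        obtain ⟨k, hk⟩ := mP (x + 1)
        have h4 := (hx 0 (Nat.zero_le _) k).2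
        rw [hk] at h4
        have h1 := hR1 0
        have h2 := hRP 0 (Nat.zero_le _)
        have h3 := hxP x
        rw [hc x, hc (x + 1)]
        exact ⟨_, ⟨0, Nat.zero_le _, Or.inr (seg_mem _ (by omega) le_rfl)⟩, _,
          ⟨0, Nat.zero_le _, Or.inl (seg_mem _ (by omega) (by omega))⟩, h4.symm⟩
      | some i =>
        obtain ⟨k, hk⟩ := mP (x + 1)
        have h4 := (hx i i.2.le k).1
        rw [hk] at h4
        have h1 := hR1 i
        have h2 := hRP i i.2.le
        have h3 := hxP x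
        rw [hs x i, hs (x + 1) i]
        exact ⟨_, Or.inr (seg_mem _ (by omega) le_rfl), _,
          Or.inl (seg_mem _ (by omega) (by omega)), h4⟩
    have hspoke : ∀ (x : ℤ) (i : Fin q), ∃ a ∈ φ (x, none), ∃ b ∈ φ (x, some i), G.Adj a b := by
      intro x i
      obtain ⟨k, hk⟩ := mP x
      have h4 := (hx i i.2.le (k + 1)).1
      have e : m * (k + 1) = x * P + m := by rw [mul_add, hk, mul_one]
      rw [e] at h4
      have h1 := hR1 i
      have h2 := hRP i i.2.le
      have h3 := hxP x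
      rw [hc x, hs x i]
      exact ⟨_, ⟨i, i.2.le, Or.inl (seg_mem _ (by omega) (by omega))⟩, _,
        Or.inl (seg_mem _ (by omega) (by omega)), h4⟩
    rintro ⟨x, o⟩ ⟨x', o'⟩ h
    unfold StarZ at h
    rw [SimpleGraph.fromRel_adj] at h
    obtain ⟨hne, (⟨h1, h2⟩ | ⟨h1, h2⟩) | (⟨h1, h2⟩ | ⟨h1, h2⟩)⟩ := h
    · simp only at h1 h2
      subst h1 h2
      exact hstep x o
    · simp only at h1 h2
      subst h1 h2
      cases o' with
      | none => exact absurd rfl hne
      | some i => exact hspoke x i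
    · simp only at h1 h2
      subst h1 h2
      obtain ⟨a, ha, b, hb, hab⟩ := hstep x' o'
      exact ⟨b, hb, a, ha, hab.symm⟩
    · simp only at h1 h2
      subst h1 h2
      cases o with
      | none => exact absurd rfl hne
      | some i =>
        obtain ⟨a, ha, b, hb, hab⟩ := hspoke x' i
        exact ⟨b, hb, a, ha, hab.symm⟩

end Pool.Agent.Helper67.NW
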